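import Pool.Agent.H20.EOrd

namespace Pool.Agent.Results.MP_dc39f7_co.Exponential
open Pool.Agent.H20.EOrd SimpleGraph

theorem result : ∀ j : ℕ, ∃ f : Sym2 (Fin (4 * j + 5)) → ℕ,
    Set.InjOn f (pathGraph (4 * j + 5)).edgeSet ∧ 2 ^ j < ocn (pathGraph (4 * j + 5)) f ∧
      ocn (pathGraph (4 * j + 5)) f < ⊤ :=
  main

end Pool.Agent.Results.MP_dc39f7_co.Exponential
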